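import Pool.Agent.Helper23.QF.Goals

/-!
# Packet CFSEQ of project QF (`MP_ab92ec_nt`): digits from a sequence of complete quotients
-/

set_option autoImplicit false

namespace Pool.Agent.Helper83.QF

open Pool.Agent.Helper23.QF

/-- the digits of the shifted sequences -/
theorem s_get (x : ℕ → ℝ) (u : ℕ → ℕ) (h1 : ∀ i, 1 < x i) (h2 : ∀ i, x i = u i + 1 / x (i + 1))
    (n : ℕ) : ∀ i, (GenContFract.of (x i)).s.get? n = some ⟨1, ((u (i + n + 1) : ℕ) : ℝ)⟩ := by
  have hpos : ∀ i, 0 < x i := fun i => lt_trans one_pos (h1 i)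
  have hlt : ∀ i, 1 / x (i + 1) < 1 := fun i => by
    rw [div_lt_one (hpos _)]; exact h1 _
  have hgt : ∀ i, 0 < 1 / x (i + 1) := fun i => one_div_pos.mpr (hpos _)
  have hfl : ∀ i, ⌊x i⌋ = (u i : ℤ) := fun i => by
    rw [Int.floor_eq_iff]
    have := h2 i
    have a := hlt i
    have b := hgt i
    constructor
    · push_cast; linarith
    · push_cast; linarith
  have hfr : ∀ i, Int.fract (x i) = 1 / x (i + 1) := fun i => by
    rw [Int.fract, hfl i]
    have := h2 i
    push_cast
    linarith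
  have hinv : ∀ i, (Int.fract (x i))⁻¹ = x (i + 1) := fun i => by
    rw [hfr i, one_div, inv_inv]
  induction n with
  | zero =>
    intro i
    have hne : Int.fract (x i) ≠ 0 := by
      rw [hfr i]; exact (hgt i).ne'
    have h := GenContFract.of_s_head hne
    have h' : (GenContFract.of (x i)).s.get? 0 = some ⟨1, ((⌊(Int.fract (x i))⁻¹⌋ : ℤ) : ℝ)⟩ := h
    rw [h', hinv i, hfl (i + 1)]
    simp
  | succ n ih =>
    intro i
    rw [GenContFract.of_s_succ, hinv i, ih (i + 1)]
    have : i + 1 + n + 1 = i + (n + 1) + 1 := by omega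
    rw [this]

/-- PACKET CFSEQ. -/
theorem gCFSEQ : GCFSEQ := by
  intro x u h1 h2 n
  have h := s_get x u h1 h2 n 0
  rw [zero_add] at h
  rw [GenContFract.partDens, Stream'.Seq.map_get?, h]
  rfl

end Pool.Agent.Helper83.QF
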